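import Pool.Agent.Helper68.EP.St1

/-!
# Project EP, module EFB: exit scales
-/

set_option autoImplicit false

open MeasureTheory Set Filter Topology
open scoped ENNReal RealInnerProductSpace

namespace Pool.Agent.Helper2.EP

open Pool.Agent.Helper68.LM (Pl BB Bd Av HL ft fm DQ)
open Pool.Agent.Helper68.EP Pool.Agent.Helper20.RG
open Pool.Agent.Helper20.RL (RQ Rich BM Fml)

theorem hEFB (hEQ : StEQ) : StEFB := by
  obtain ⟨q1, q2, q3, q4, q5, q6⟩ := hEQ
  have hsub : ∀ (E : Set Pl) (D : ℝ) (b : ℤ), Fb E D b ⊆ E := fun E D b z hz => hz.1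
  have hmeas : ∀ (E : Set Pl) (D : ℝ) (b : ℤ), MeasurableSet E → MeasurableSet (Fb E D b) := by
    intro E D b hE
    have h1 : Fb E D b = E ∩ ⋂ b' : ℤ, {z | b ≤ b' →
        volume (E ∩ DQ3 b' z) ≤ ENNReal.ofReal (D * (4 : ℝ) ^ b')} := by
      ext z
      simp only [Fb, mem_ofPred_eq, mem_inter_iff, mem_iInter]
    rw [h1]
    refine hE.inter (MeasurableSet.iInter fun b' => ?_)
    by_cases hb : b ≤ b'
    · simp only [hb, true_imp_iff]
      exact measurableSet_le (q6 E b').1 measurable_const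
    · simp only [hb, false_imp_iff, ofPred_true]
      exact MeasurableSet.univ
  refine ⟨fun E D b => ⟨hsub E D b, hmeas E D b, fun hE => ⟨hmeas E D b hE.1,
    hE.2.subset (hsub E D b)⟩⟩, ?_, ?_, ?_, ?_⟩
  · intro E D D' b b' hb hD z hz
    refine ⟨hz.1, fun b'' hb'' => (hz.2 b'' (hb.trans hb'')).trans ?_⟩
    apply ENNReal.ofReal_le_ofReal
    have : (0 : ℝ) < (4 : ℝ) ^ b'' := zpow_pos (by norm_num) _
    exact mul_le_mul_of_nonneg_right hD this.le
  · intro E E' D b hE z hz
    refine ⟨hz.2, fun b' hb' => le_trans ?_ (hz.1.2 b' hb')⟩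
    exact measure_mono (inter_subset_inter_left _ hE)
  · intro E D b b' z hb hz z' hz'
    refine ⟨hz'.1, fun b'' hb'' => ?_⟩
    rw [(q3 b' b'' z z' (hb.trans hb'') hz'.2).1]
    exact hz.2 b'' hb''
  · intro E D b b' y hb
    by_cases hne : (Fb E D b ∩ DQ b' y).Nonempty
    · obtain ⟨z, hz1, hz2⟩ := hne
      have h1 : DQ b' z = DQ b' y := (q3 b' b' y z le_rfl hz2).2
      rw [← h1]
      refine le_trans (measure_mono ?_) (hz1.2 b' hb)
      exact inter_subset_inter (hsub E D b) (q1 b' z).2.2.1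
    · rw [not_nonempty_iff_eq_empty] at hne
      rw [hne, measure_empty]
      simp

end Pool.Agent.Helper2.EP
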