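import Pool.Agent.Helper68.EP.St1

/-!
# Project EP, module EVF: the family of maximal rich cells
-/

set_option autoImplicit false

open MeasureTheory Set Filter Topology
open scoped ENNReal RealInnerProductSpace

namespace Pool.Agent.Helper2.EP

open Pool.Agent.Helper68.LM (Pl BB Bd Av HL ft fm DQ)
open Pool.Agent.Helper68.EP Pool.Agent.Helper20.RG
open Pool.Agent.Helper20.RL (RQ Rich BM Fml)

theorem hEVF (hLGR : Pool.Agent.Helper20.RL.StLGR) (hLFM : Pool.Agent.Helper20.RL.StLFM)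
    (hEFB : StEFB) : StEVF := by
  classical
  obtain ⟨g1, g2, g3, g4, g5⟩ := hLGR
  obtain ⟨f1, f2⟩ := hLFM
  intro P Δ u j k θ E hE hθ
  have hFo : BM (Fo P u k (q0 P u) E) := (hEFB.1 E (DD P u) _).2.2 hE
  -- the set of widths is bounded above
  have hmax : ∀ y ∈ Vc P Δ u j k θ E, Bc P Δ u j k θ E y ∈ Wc P Δ u j k θ E y ∧
      (∀ w ∈ Wc P Δ u j k θ E y, w ≤ Bc P Δ u j k θ E y) := by
    intro y hy
    have hbd : BddAbove (Wc P Δ u j k θ E y) := ⟨k - 2 ^ q0 P u, fun w hw => hw.2.1⟩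
    exact ⟨Int.csSup_mem hy hbd, fun w hw => le_csSup hbd hw⟩
  have hself : ∀ y, y ∈ Qc P Δ u j k θ E y := fun y => (g1 _ _ _ y).2.2
  -- cells of larger width agree
  have hcell : ∀ (y z : Pl) (w w' : ℤ), w ≤ w' → z ∈ RQ (Δ.sl u j) (k - (u : ℤ)) w y →
      RQ (Δ.sl u j) (k - (u : ℤ)) w' z = RQ (Δ.sl u j) (k - (u : ℤ)) w' y := by
    intro y z w w' hw hz
    exact g2 _ _ _ _ _ (g3 _ _ _ _ _ _ le_rfl hw hz)
  have hWc : ∀ (y z : Pl) (w w' : ℤ), w ≤ w' → z ∈ RQ (Δ.sl u j) (k - (u : ℤ)) w y →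
      (w' ∈ Wc P Δ u j k θ E z ↔ w' ∈ Wc P Δ u j k θ E y) := by
    intro y z w w' hw hz
    have h := hcell y z w w' hw hz
    simp only [Wc, Rich, mem_ofPred_eq, h]
  have hmain : ∀ y ∈ Vc P Δ u j k θ E, ∀ z ∈ Qc P Δ u j k θ E y,
      z ∈ Vc P Δ u j k θ E ∧ Bc P Δ u j k θ E z = Bc P Δ u j k θ E y ∧
        Qc P Δ u j k θ E z = Qc P Δ u j k θ E y := by
    intro y hy z hz
    obtain ⟨m1, m2⟩ := hmax y hy
    have hz0 : Bc P Δ u j k θ E y ∈ Wc P Δ u j k θ E z := (hWc y z _ _ le_rfl hz).mpr m1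
    have hzV : z ∈ Vc P Δ u j k θ E := ⟨_, hz0⟩
    obtain ⟨n1, n2⟩ := hmax z hzV
    have hB : Bc P Δ u j k θ E z = Bc P Δ u j k θ E y := by
      apply le_antisymm
      · exact m2 _ ((hWc y z _ _ (n2 _ hz0) hz).mp n1)
      · exact n2 _ hz0
    refine ⟨hzV, hB, ?_⟩
    unfold Qc
    rw [hB]
    exact hcell y z _ _ le_rfl hz
  refine ⟨fun y hy => ⟨(hmax y hy).1, (hmax y hy).2, hself y, hmain y hy⟩, ?_, ?_, ?_⟩
  · exact ⟨subset_rfl, fun y hy z hz => (hmain y hy z hz).1⟩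
  · intro M
    refine ⟨fun y hy => hy.1, fun y hy z hz => ?_⟩
    obtain ⟨a1, a2, a3⟩ := hmain y hy.1 z hz
    refine ⟨a1, ?_⟩
    rw [a3]
    exact hy.2
  · intro V' hV'
    obtain ⟨hV1, hV2⟩ := hV'
    have hF : Fml (Fo P u k (q0 P u) E) (Δ.sl u j) θ V' (fun _ => k - (u : ℤ))
        (Bc P Δ u j k θ E) := by
      refine ⟨?_, ?_⟩
      · intro z hz z' hz'
        exact ⟨hV2 z hz hz', rfl, (hmain z (hV1 hz) z' hz').2.1⟩
      · intro z hz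
        exact (hmax z (hV1 hz)).1.2.2
    obtain ⟨b1, b2, b3, b4⟩ := f2 _ _ _ _ _ _ hFo.1 hF hθ
    refine ⟨hF, b2, ?_, b4⟩
    intro w
    have h := b1 (k - (u : ℤ)) w
    simpa using h

end Pool.Agent.Helper2.EP
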